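import Mathlib

/-! Every linearly ordered coarse space is asymorphic to a subspace of a linearly ordered coarse
space with an interval base. -/

namespace Pool.Agent.Results.MP_54b381_gt.Holds

open Set

universe u

/-- composition of relations -/
def comp {X : Type u} (E F : Set (X × X)) : Set (X × X) := {p | ∃ z, (p.1, z) ∈ E ∧ (z, p.2) ∈ F}

/-- the ball `E[x]` -/
def ball {X : Type u} (E : Set (X × X)) (x : X) : Set X := {y | (x, y) ∈ E}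

/-- coarse structures -/
structure Coarse {X : Type u} (𝓔 : Set (Set (X × X))) : Prop where
  diag : ∀ E ∈ 𝓔, diagonal X ⊆ E
  comp : ∀ E ∈ 𝓔, ∀ F ∈ 𝓔, comp E F ∈ 𝓔
  inv : ∀ E ∈ 𝓔, Prod.swap ⁻¹' E ∈ 𝓔
  sub : ∀ E ∈ 𝓔, ∀ F, diagonal X ⊆ F → F ⊆ E → F ∈ 𝓔

/-- connected coarse spaces with a compatible linear order -/
def LOCoarse {X : Type u} [LinearOrder X] (𝓔 : Set (Set (X × X))) : Prop :=
  Coarse 𝓔 ∧ (∀ x y, ∃ E ∈ 𝓔, y ∈ ball E x) ∧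
    ∀ E ∈ 𝓔, ∃ F ∈ 𝓔, ∀ x y, x < y → y ∉ ball F x → ∀ x' ∈ ball E x, x' < y

/-- a base all of whose balls are intervals -/
def IntervalBase {X : Type u} [LinearOrder X] (𝓔 : Set (Set (X × X))) : Prop :=
  ∃ 𝓑 ⊆ 𝓔, (∀ E ∈ 𝓔, ∃ B ∈ 𝓑, E ⊆ B) ∧ ∀ B ∈ 𝓑, ∀ x, ∃ a b, a ≤ b ∧ ball B x = Icc a b

/-- the subspace structure -/
def sub {Z : Type u} (𝓕 : Set (Set (Z × Z))) (Y : Set Z) : Set (Set (Y × Y)) :=
  {G | ∃ F ∈ 𝓕, G = {p | (p.1.1, p.2.1) ∈ F}}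

/-- macro-uniform maps -/
def Macro {X Y : Type u} (𝓔 : Set (Set (X × X))) (𝓕 : Set (Set (Y × Y))) (f : X → Y) : Prop :=
  ∀ E ∈ 𝓔, ∃ F ∈ 𝓕, ∀ x, f '' ball E x ⊆ ball F (f x)

variable {X : Type u} [LinearOrder X] {𝓔 : Set (Set (X × X))}

abbrev C (X : Type u) [LinearOrder X] : Type u := LowerSet X ×ₗ Bool

def lo (A : Set X) : C X := toLex ((upperClosure A).compl, true)

def hi (A : Set X) : C X := toLex (lowerClosure A, false)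

def H (A : Set X) : Set (C X) := Icc (lo A) (hi A)

theorem lo_anti {A B : Set X} (h : A ⊆ B) : lo B ≤ lo A :=
  Prod.Lex.toLex_mono ⟨fun _ hx ⟨a, ha, h'⟩ => hx ⟨a, h ha, h'⟩, le_rfl⟩

theorem hi_mono {A B : Set X} (h : A ⊆ B) : hi A ≤ hi B :=
  Prod.Lex.toLex_mono ⟨lowerClosure_mono h, le_rfl⟩

theorem H_mono {A B : Set X} (h : A ⊆ B) : H A ⊆ H B := Icc_subset_Icc (lo_anti h) (hi_mono h)

theorem Hb {E F : Set (X × X)} (h : E ⊆ F) (x : X) : H (ball E x) ⊆ H (ball F x) :=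
  H_mono fun _ hy => h hy

theorem lo_le_hi {A B : Set X} : lo A ≤ hi B ↔ ∃ a ∈ A, ∃ b ∈ B, a ≤ b := by
  have : lo A ≤ hi B ↔ (upperClosure A).compl < lowerClosure B := by
    simp [lo, hi, Prod.Lex.toLex_le_toLex]
  rw [this, ← not_le]
  constructor
  · intro h
    obtain ⟨y, ⟨b, hb, h1⟩, h2⟩ := not_subset.1 h
    obtain ⟨a, ha, h3⟩ := not_not.1 h2
    exact ⟨a, ha, b, hb, h3.trans h1⟩
  · rintro ⟨a, ha, b, hb, hab⟩ h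
    exact h (⟨b, hb, hab⟩ : a ∈ lowerClosure B) ⟨a, ha, le_rfl⟩

theorem meet {A B : Set X} (hA : A.OrdConnected) (hB : B.OrdConnected) {z : C X} (h1 : z ∈ H A)
    (h2 : z ∈ H B) : (A ∩ B).Nonempty := by
  obtain ⟨a, ha, b, hb, hab⟩ := lo_le_hi.1 (h1.1.trans h2.2)
  obtain ⟨b', hb', a', ha', hab'⟩ := lo_le_hi.1 (h2.1.trans h1.2)
  rcases le_total a b' with h | h
  · exact ⟨b', hA.out ha ha' ⟨h, hab'⟩, hb'⟩
  · exact ⟨a, ha, hB.out hb' hb ⟨h, hab⟩⟩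

theorem pt_mem {A : Set X} {x : X} (h : x ∈ A) : hi {x} ∈ H A :=
  ⟨lo_le_hi.2 ⟨x, h, x, rfl, le_rfl⟩, hi_mono (singleton_subset_iff.2 h)⟩

theorem of_pt_mem {A : Set X} (hA : A.OrdConnected) {x : X} (h : hi {x} ∈ H A) : x ∈ A := by
  obtain ⟨y, h1, rfl⟩ := meet hA ordConnected_singleton h (pt_mem rfl)
  exact h1

omit [LinearOrder X] in
theorem Coarse.left (h : Coarse 𝓔) {E F : Set (X × X)} (hF : F ∈ 𝓔) : E ⊆ Holds.comp E F :=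
  fun p hp => ⟨p.2, hp, h.diag F hF rfl⟩

omit [LinearOrder X] in
theorem Coarse.right (h : Coarse 𝓔) {E F : Set (X × X)} (hE : E ∈ 𝓔) : F ⊆ Holds.comp E F :=
  fun p hp => ⟨p.1, h.diag E hE rfl, hp⟩

theorem conv (h : LOCoarse 𝓔) {E : Set (X × X)} (hE : E ∈ 𝓔) :
    ∃ F ∈ 𝓔, E ⊆ F ∧ ∀ x, (ball F x).OrdConnected := by
  obtain ⟨F1, h1, h1'⟩ := h.2.2 E hE
  obtain ⟨F2, h2, h2'⟩ := h.2.2 _ (h.1.inv E hE)
  have hs : E ⊆ {p | ∃ a ∈ ball E p.1, ∃ b ∈ ball E p.1, p.2 ∈ Icc a b} :=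
    fun p hp => ⟨p.2, hp, p.2, hp, le_rfl, le_rfl⟩
  refine ⟨_, h.1.sub _ (h.1.comp _ h1 _ (h.1.comp _ hE _ h2)) _ ((h.1.diag E hE).trans hs) ?_,
    hs, fun x => ⟨?_⟩⟩
  · rintro ⟨x, y⟩ ⟨a, ha, b, hb, h3, h4⟩
    rcases lt_trichotomy x y with h5 | rfl | h5
    · refine h.1.left (h.1.comp _ hE _ h2) ?_
      by_contra hn
      exact not_lt.2 h4 (h1' x y h5 hn b hb)
    · exact h.1.diag _ (h.1.comp _ h1 _ (h.1.comp _ hE _ h2)) rfl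
    · refine h.1.right h1 ⟨a, ha, ?_⟩
      rcases h3.eq_or_lt with rfl | h6
      · exact h.1.diag _ h2 rfl
      · by_contra hn
        exact lt_asymm h5 (h2' a y h6 hn x ha)
  · rintro y ⟨a, ha, -, -, h3, -⟩ z ⟨-, -, b, hb, -, h4⟩ w hw
    exact ⟨a, ha, b, hb, h3.trans hw.1, hw.2.trans h4⟩

abbrev Z (𝓔 : Set (Set (X × X))) : Type u := {z : C X // ∃ E ∈ 𝓔, ∃ x, z ∈ H (ball E x)}

def til (𝓔 : Set (Set (X × X))) (E : Set (X × X)) : Set (Z 𝓔 × Z 𝓔) :=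
  {p | p.1 = p.2 ∨ ∃ x, p.1.1 ∈ H (ball E x) ∧ p.2.1 ∈ H (ball E x)}

def FZ (𝓔 : Set (Set (X × X))) : Set (Set (Z 𝓔 × Z 𝓔)) :=
  {G | diagonal _ ⊆ G ∧ ∃ E ∈ 𝓔, G ⊆ til 𝓔 E}

theorem til_mono {E F : Set (X × X)} (h : E ⊆ F) : til 𝓔 E ⊆ til 𝓔 F := fun _ hp =>
  hp.imp_right fun ⟨x, h1, h2⟩ => ⟨x, Hb h x h1, Hb h x h2⟩

theorem til_mem {E : Set (X × X)} (h : E ∈ 𝓔) : til 𝓔 E ∈ FZ 𝓔 :=
  ⟨fun _ hp => Or.inl hp, E, h, subset_rfl⟩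

theorem three (h : Coarse 𝓔) {E : Set (X × X)} (hE : E ∈ 𝓔) : ∃ F ∈ 𝓔, E ⊆ F ∧
    ∀ x x', (ball E x ∩ ball E x').Nonempty → ball E x' ⊆ ball F x :=
  ⟨_, h.comp _ hE _ (h.comp _ (h.inv _ hE) _ hE), h.left (h.comp _ (h.inv _ hE) _ hE),
    fun _ x' ⟨y, h1, h2⟩ _ hw => ⟨y, h1, x', h2, hw⟩⟩

theorem coarse (h : LOCoarse 𝓔) : Coarse (FZ 𝓔) where
  diag _ hG := hG.1
  comp := by
    rintro G ⟨hG, E, hE, hG'⟩ G' ⟨hG1, E', hE', hG1'⟩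
    obtain ⟨F, hF, h1, h2⟩ := conv h (h.1.comp _ hE _ hE')
    obtain ⟨F', hF', h3, h4⟩ := three h.1 hF
    refine ⟨fun p hp => ⟨p.1, hG rfl, hG1 hp⟩, F', hF', ?_⟩
    rintro ⟨z, w⟩ ⟨v, h5, h6⟩
    have h7 := til_mono ((h.1.left hE').trans h1) (hG' h5)
    have h8 := til_mono ((h.1.right hE).trans h1) (hG1' h6)
    rcases h7 with e | ⟨x, a1, a2⟩
    · obtain rfl : z = v := e
      exact til_mono h3 h8
    rcases h8 with e | ⟨x', b1, b2⟩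
    · obtain rfl : v = w := e
      exact til_mono h3 (Or.inr ⟨x, a1, a2⟩)
    exact Or.inr ⟨x, Hb h3 x a1, H_mono (h4 x x' (meet (h2 x) (h2 x') a2 b1)) b2⟩
  inv := by
    rintro G ⟨hG, E, hE, hG'⟩
    refine ⟨fun p hp => hG (Eq.symm hp), E, hE, fun p hp => ?_⟩
    rcases hG' hp with h1 | ⟨x, h1, h2⟩
    · exact Or.inl h1.symm
    · exact Or.inr ⟨x, h2, h1⟩
  sub := fun _ ⟨_, E, hE, hG'⟩ _ h1 h2 => ⟨h1, E, hE, h2.trans hG'⟩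

theorem ibase (h : LOCoarse 𝓔) : IntervalBase (FZ 𝓔) := by
  refine ⟨{B ∈ FZ 𝓔 | ∀ x, ∃ a b, a ≤ b ∧ ball B x = Icc a b}, fun _ hB => hB.1, ?_,
    fun _ hB => hB.2⟩
  rintro G ⟨hG, E0, hE0, hG'⟩
  obtain ⟨E, hE, h1, h2⟩ := conv h hE0
  obtain ⟨F, hF, h3, h4⟩ := three h.1 hE
  let A : Z 𝓔 → Set X := fun z => {y | ∃ x, z.1 ∈ H (ball E x) ∧ y ∈ ball E x}
  have hA : ∀ z x, z.1 ∈ H (ball E x) → A z ⊆ ball F x := by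
    rintro z x hx y ⟨x', h5, h6⟩
    exact h4 x x' (meet (h2 x) (h2 x') hx h5) h6
  have hA' : ∀ z x, z.1 ∈ H (ball E x) → H (ball E x) ⊆ H (A z) := fun z x hx =>
    H_mono fun y hy => ⟨x, hx, hy⟩
  refine ⟨{p | p.1 = p.2 ∨ ((∃ x, p.1.1 ∈ H (ball E x)) ∧ p.2.1 ∈ H (A p.1))},
    ⟨⟨fun _ hp => Or.inl hp, F, hF, ?_⟩, fun z => ?_⟩, fun p hp => ?_⟩
  · rintro p (hp | ⟨⟨x, hx⟩, hp⟩)
    · exact Or.inl hp
    · exact Or.inr ⟨x, Hb h3 x hx, H_mono (hA _ x hx) hp⟩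
  · by_cases hz : ∃ x, z.1 ∈ H (ball E x)
    · obtain ⟨x, hx⟩ := hz
      have h5 := hA' z x hx hx
      have h6 := h5.1.trans h5.2
      refine ⟨⟨lo (A z), F, hF, x, H_mono (hA z x hx) ⟨le_rfl, h6⟩⟩,
        ⟨hi (A z), F, hF, x, H_mono (hA z x hx) ⟨h6, le_rfl⟩⟩, h6, ?_⟩
      ext w
      constructor
      · rintro (e | hw)
        · obtain rfl : z = w := e
          exact h5
        · exact hw.2
      · exact fun hw => Or.inr ⟨⟨x, hx⟩, hw⟩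
    · refine ⟨z, z, le_rfl, ?_⟩
      rw [Icc_self]
      ext w
      exact ⟨fun hw => hw.elim Eq.symm fun hw => absurd hw.1 hz, fun hw => Or.inl hw.symm⟩
  · rcases til_mono h1 (hG' hp) with h5 | ⟨x, h5, h6⟩
    · exact Or.inl h5
    · exact Or.inr ⟨⟨x, h5⟩, hA' _ x h5 h6⟩

theorem result (X : Type u) [LinearOrder X] (𝓔 : Set (Set (X × X))) (h : LOCoarse 𝓔) :
    ∃ (Z : Type u) (_ : LinearOrder Z) (𝓕 : Set (Set (Z × Z))), LOCoarse 𝓕 ∧ IntervalBase 𝓕 ∧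
      ∃ (Y : Set Z) (e : X ≃ Y), Macro 𝓔 (sub 𝓕 Y) e ∧ Macro (sub 𝓕 Y) 𝓔 e.symm := by
  let f : X → Z 𝓔 := fun x => ⟨hi {x}, (h.2.1 x x).imp fun _ hE => ⟨hE.1, x, pt_mem hE.2⟩⟩
  have hf : Function.Injective f := fun x y e =>
    of_pt_mem (A := {y}) ordConnected_singleton (by
      rw [show hi {x} = hi {y} from congrArg Subtype.val e]
      exact pt_mem rfl)
  refine ⟨Z 𝓔, inferInstance, FZ 𝓔, ⟨coarse h, ?_, fun G hG => ?_⟩, ibase h, range f,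
    Equiv.ofInjective f hf, fun E hE => ?_, ?_⟩
  · rintro ⟨z, E, hE, x, hx⟩ ⟨w, E', hE', x', hx'⟩
    obtain ⟨E'', hE'', h1⟩ := h.2.1 x x'
    refine ⟨_, til_mem (h.1.comp _ hE _ (h.1.comp _ hE'' _ hE')), Or.inr ⟨x,
      Hb (h.1.left (h.1.comp _ hE'' _ hE')) x hx, H_mono (fun y hy => ?_) hx'⟩⟩
    exact h.1.right (F := comp E'' E') hE (⟨x', h1, hy⟩ : (x, y) ∈ comp E'' E')
  · obtain ⟨𝓑, h1, h2, h3⟩ := ibase h
    obtain ⟨B, hB, h4⟩ := h2 G hG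
    refine ⟨B, h1 hB, fun x y hxy hy x' hx' => ?_⟩
    obtain ⟨a, b, -, h5⟩ := h3 B hB x
    have h6 : x ∈ ball B x := (h1 hB).1 rfl
    have h7 : x' ∈ ball B x := h4 hx'
    rw [h5] at hy h6 h7
    exact h7.2.trans_lt (not_le.1 fun h8 => hy ⟨h6.1.trans hxy.le, h8⟩)
  · refine ⟨_, ⟨_, til_mem hE, rfl⟩, fun x => ?_⟩
    rintro _ ⟨y, hy, rfl⟩
    exact Or.inr ⟨x, pt_mem (h.1.diag _ hE rfl), pt_mem hy⟩
  · rintro _ ⟨G, ⟨-, E1, hE1, hG⟩, rfl⟩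
    obtain ⟨E, hE, h1, h2⟩ := conv h hE1
    refine ⟨_, h.1.comp _ (h.1.inv _ hE) _ hE, fun z => ?_⟩
    rintro _ ⟨w, hw, rfl⟩
    obtain ⟨x, rfl⟩ := (Equiv.ofInjective f hf).surjective z
    obtain ⟨y, rfl⟩ := (Equiv.ofInjective f hf).surjective w
    rw [Equiv.symm_apply_apply, Equiv.symm_apply_apply]
    rcases til_mono h1 (hG hw) with h3 | ⟨v, h3, h4⟩
    · obtain rfl : x = y := hf h3
      exact h.1.diag _ (h.1.comp _ (h.1.inv _ hE) _ hE) rfl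
    · exact ⟨v, of_pt_mem (h2 v) h3, of_pt_mem (h2 v) h4⟩

end Pool.Agent.Results.MP_54b381_gt.Holds
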